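import Pool.Agent.H44.HawkG

/-!
# Cunningham chains in the Hawkins random sieve

In the Hawkins random sieve, almost surely the longest Cunningham chain (of the first kind, and
likewise of the second kind) formed by random primes and starting at a number at most `x` has
length asymptotic to `log x / log log x`.  In particular the analogue of the question has, almost
surely, a positive answer for both kinds.
-/

open MeasureTheory Filter Topology
open Pool.Agent.H44.Hawk

namespace Pool.Agent.Results.MP_c183ae_nt.HawkinsSieve

theorem result : ∀ᵐ u ∂uniforms, ∀ first : Bool,
    (∀ x : ℕ, BddAbove {k | ∃ n ≤ x, HasChain (randomPrimes u) first n k}) ∧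
    Tendsto (fun x : ℕ => (longest (randomPrimes u) first x : ℝ) /
      (Real.log x / Real.log (Real.log x))) atTop (𝓝 1) := by
  rw [ae_all_iff]
  exact fun first => main first

end Pool.Agent.Results.MP_c183ae_nt.HawkinsSieve
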